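import Pool.Agent.WAR.StmtsL

/-!
# Squad WAR, row CYU: if the prime satisfies `Cyc` then every point has `UnP`
-/

set_option autoImplicit false

namespace Pool.Agent.WAR.H26

open Classical WeierstrassCurve.Affine

variable [Par]

theorem cyu (nrm : NrmStmt) (mcy : McyStmt) (zlv : ZlvStmt) (its : ItsStmt) : CyuStmt := by
  intro F _ ϖ h hcyc z hz
  obtain ⟨d, P, Q, hd, rfl⟩ := nrm F ϖ h z hz
  have hd0 : d ≠ 0 := by
    rintro rfl
    rw [norm_zero] at hd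
    rcases hd with hd | hd
    · exact zero_ne_one hd
    · exact h.uni.ne hd
  refine ⟨d, P, Q, hd0, rfl, ?_⟩
  obtain ⟨g, hg⟩ := mcy F ϖ h hcyc d hd
  obtain ⟨p, T1, hT1, hp⟩ := hg P
  obtain ⟨r, T2, hT2, hr⟩ := hg Q
  obtain ⟨z1, z2, -⟩ := zlv F ϖ h d hd0
  obtain ⟨-, i2, i3, -⟩ := its F ϖ h d hd0
  have hbs : ∀ (a : ℤ) (R : Pt d), Big 1 R → Big 1 (sm a R) := fun a R hR =>
    (z2 ‖zs R‖ a R ⟨hR, le_rfl⟩).1
  have hba : ∀ (R S : Pt d), Big 1 R → Big 1 S → Big 1 (R + S) := fun R S hR hS =>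
    (z1 (max ‖zs R‖ ‖zs S‖) R S ⟨hR, le_max_left _ _⟩ ⟨hS, le_max_right _ _⟩).1.1
  have key : ∀ c e : ℤ, IsCoprime c e → c * p + e * r = 0 → CycPr P Q := by
    intro c e hce h0
    refine ⟨c, e, sm c T1 + sm e T2, hce, i2 _ _ (i3 c _ hT1) (i3 e _ hT2), ?_⟩
    have e1 : sm c P + sm e Q - (sm c T1 + sm e T2) =
        sm c (P - sm p g - T1) + sm e (Q - sm r g - T2) + (c * p + e * r) • g := by
      simp only [sm_def]
      module
    rw [e1, h0, zero_smul, add_zero]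
    exact hba _ _ (hbs c _ hp) (hbs e _ hr)
  by_cases hδ : Int.gcd p r = 0
  · rw [Int.gcd_eq_zero_iff] at hδ
    refine key 0 1 (isCoprime_zero_left.2 isUnit_one) ?_
    rw [hδ.1, hδ.2]; ring
  · have hδ0 : 0 < Int.gcd p r := Nat.pos_of_ne_zero hδ
    obtain ⟨p', r', hcop, hp', hr'⟩ := Int.exists_gcd_one hδ0
    have hc : IsCoprime p' r' := Int.isCoprime_iff_gcd_eq_one.2 hcop
    refine key (-r') p' (hc.symm).neg_left ?_
    generalize ((Int.gcd p r : ℕ) : ℤ) = δ at hp' hr'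
    rw [hp', hr']; ring

end Pool.Agent.WAR.H26
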