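import Pool.Agent.WAR.StmtsM
import Pool.Agent.Helper32_WAR.H67_MEE

/-!
# Squad WAR, row MED: every matrix is defined near the corner
-/

namespace Pool.Agent.WAR.H26

open Classical WeierstrassCurve.Affine

variable [Par]

theorem med (fra : FraStmt) (nrm : NrmStmt) (mzz : MzzStmt) (lin : LinStmt) (_zlv : ZlvStmt) :
    MedStmt := by
  intro F _ ϖ h a b c e hdet
  have hgd : Gd F := h.gd
  have two : (2 : F) ≠ 0 := h.two_ne
  obtain ⟨η, hη0, hηA, hηC, hη1⟩ : ∃ η : ℝ, 0 < η ∧ (a ≠ 0 → η < ‖am F a‖) ∧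
      (c ≠ 0 → η < ‖am F c‖) ∧ η < 1 := by
    have hex : ∀ n : ℤ, ∃ η : ℝ, 0 < η ∧ (n ≠ 0 → η < ‖am F n‖) := by
      intro n
      by_cases hn : n = 0
      · exact ⟨1, one_pos, fun h' => absurd hn h'⟩
      · refine ⟨‖am F n‖ / 2, ?_, fun _ => ?_⟩
        · have := norm_pos_iff.2 (h.am_ne hn)
          linarith
        · have := norm_pos_iff.2 (h.am_ne hn)
          linarith
    obtain ⟨η1, h1, h2⟩ := hex a
    obtain ⟨η2, h3, h4⟩ := hex c
    refine ⟨min (min η1 η2) (1 / 2), by positivity, fun hn => ?_, fun hn => ?_, ?_⟩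
    · exact lt_of_le_of_lt ((min_le_left _ _).trans (min_le_left _ _)) (h2 hn)
    · exact lt_of_le_of_lt ((min_le_left _ _).trans (min_le_right _ _)) (h4 hn)
    · exact lt_of_le_of_lt (min_le_right _ _) (by norm_num)
  refine ⟨η, hη0, ?_⟩
  intro z hz
  obtain ⟨hU, hz1, hz2, hz3⟩ := hz
  rw [sub_zero] at hz3
  obtain ⟨d, P, Q, hdn, rfl⟩ := nrm F ϖ h z hU
  have hd : d ≠ 0 := by
    rw [← norm_pos_iff]
    rcases hdn with h1 | h1
    · rw [h1]; exact one_pos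
    · rw [h1]; exact h.uni
  have hr1 : 1 < 1 / η := by
    rw [lt_div_iff₀ hη0]
    linarith
  obtain ⟨m1, m2, m3, m4⟩ := mzz F ϖ h d hd P Q
  obtain ⟨hP0, hQ0⟩ := m1 hU
  have hP : Big 1 P := Or.inr (hr1.trans hz1)
  have hQ : Big 1 Q := Or.inr (hr1.trans hz2)
  obtain ⟨hzP, hzQ, -, k1, -⟩ := m2 hP0 hP hQ0 hQ
  have hzp : 0 < ‖zs P‖ := norm_pos_iff.2 hzP
  have hQP : ‖zs Q‖ < η * ‖zs P‖ := by
    rw [k1, norm_div, div_lt_iff₀ hzp] at hz3
    exact hz3
  have eP := m3 hP0 hP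
  have hdp : 0 < ‖d‖ := norm_pos_iff.2 hd
  have hdP : ‖d‖ * ‖zs P‖ ^ 2 < η := by
    have t0 : 0 < ‖d‖ * ‖zs P‖ ^ 2 := by positivity
    have t1 : 1 / η * (‖d‖ * ‖zs P‖ ^ 2) < 1 :=
      (mul_lt_mul_of_pos_right hz1 t0).trans_eq eP
    rw [one_div, inv_mul_lt_iff₀ hη0, mul_one] at t1
    exact t1
  have key : ∀ x y : ℤ, (x ≠ 0 → η < ‖am F x‖) → (x = 0 → y = 1 ∨ y = -1) →
      sm x P + sm y Q ≠ 0 ∧ Big 1 (sm x P + sm y Q) := by
    intro x y hx hy
    by_cases hx0 : x = 0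
    · subst hx0
      have e0 : sm 0 P + sm y Q = sm y Q := by
        simp [sm_def]
      rw [e0]
      rcases hy rfl with rfl | rfl
      · have e1 : sm 1 Q = Q := by simp [sm_def]
        rw [e1]
        exact ⟨hQ0, hQ⟩
      · have e1 : sm (-1) Q = -Q := by simp [sm_def]
        rw [e1]
        refine ⟨neg_ne_zero.2 hQ0, ?_⟩
        right
        rcases Q with _ | ⟨X, Y, hXY⟩
        · exact absurd rfl hQ0
        · exact hr1.trans hz2
    · obtain ⟨b1, b2⟩ := H67.core lin h hd hη1.le hP hQ hzP hQP hdP x y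
      refine ⟨?_, b1⟩
      intro h0
      rw [h0, zs_zero, zero_sub, norm_neg, norm_mul] at b2
      have := lt_of_mul_lt_mul_right b2 hzp.le
      exact absurd (hx hx0) (not_lt.2 this.le)
  obtain ⟨k3, k4⟩ := key a b hηA (by
    rintro rfl
    have h1 : b * c = -1 := by linarith
    rcases Int.isUnit_iff.1 (IsUnit.of_mul_eq_one (-c) (by linarith : b * -c = 1)) with h2 | h2
    · exact Or.inl h2
    · exact Or.inr h2)
  obtain ⟨k5, k6⟩ := key c e hηC (by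
    rintro rfl
    have h1 : e * a = 1 := by linarith
    rcases Int.isUnit_iff.1 (IsUnit.of_mul_eq_one a h1) with h2 | h2
    · exact Or.inl h2
    · exact Or.inr h2)
  obtain ⟨-, -, hU', -, -⟩ := (mzz F ϖ h d hd (sm a P + sm b Q) (sm c P + sm e Q)).2.1 k3 k4 k5 k6
  refine ⟨kum d (sm a P + sm b Q) (sm c P + sm e Q), hU, hU', hdet, ?_⟩
  exact (fra F two d P Q a b c e hd hU).symm

end Pool.Agent.WAR.H26
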