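import Pool.Agent.WAR.Defs
import Pool.Agent.WAR.Alg
import Pool.Agent.Helper32_WAR.H32_Add
import Pool.Agent.Helper32_WAR.H26_CycAlg

/-!
# The condition `Cyc p` holds for all curves and `p = 3, 5, 7, 11` (good reduction)
-/

namespace Pool.Agent.WAR.H26S

open WeierstrassCurve.Affine Finset Pool.Agent.WAR.H32

/-- independence of two `l`-torsion elements -/
theorem ind_prime {A : Type} [AddCommGroup A] (l : ℕ) (hl : l.Prime) (x y : A) (hx : l • x = 0)
    (hy : l • y = 0) (hx0 : x ≠ 0) (hno : ¬ ∃ k : ℤ, y = k • x) (α β : ℤ)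
    (hab : α • x + β • y = 0) : (l : ℤ) ∣ α ∧ (l : ℤ) ∣ β := by
  have hlp : Prime (l : ℤ) := Nat.prime_iff_prime_int.mp hl
  have hβ : (l : ℤ) ∣ β := by
    by_contra hc
    obtain ⟨u, v, huv⟩ := ((hlp.coprime_iff_not_dvd).mpr hc : IsCoprime (l : ℤ) β)
    apply hno
    refine ⟨-(v * α), ?_⟩
    have h3 : y = (u * (l : ℤ) + v * β) • y := by rw [huv, one_smul]
    rw [h3, add_smul, mul_smul, natCast_zsmul, hy, smul_zero, zero_add, mul_smul]
    have h4 : β • y = -(α • x) := by rw [eq_neg_iff_add_eq_zero, add_comm]; exact hab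
    rw [h4, smul_neg, neg_smul, mul_smul]
  refine ⟨?_, hβ⟩
  by_contra hc
  obtain ⟨u, v, huv⟩ := ((hlp.coprime_iff_not_dvd).mpr hc : IsCoprime (l : ℤ) α)
  obtain ⟨β', rfl⟩ := hβ
  have h5 : ((l : ℤ) * β') • y = 0 := by
    rw [mul_comm, mul_smul, natCast_zsmul, hy, smul_zero]
  rw [h5, add_zero] at hab
  apply hx0
  have h3 : x = (u * (l : ℤ) + v * α) • x := by rw [huv, one_smul]
  rw [h3, add_smul, mul_smul, natCast_zsmul, hx, smul_zero, zero_add, mul_smul, hab, smul_zero]

variable [Par]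

section pts
variable {F : Type} [Field F] [DecidableEq F]

/-- the number of points -/
theorem card_le [Fintype F] {d : F} (s : Finset (W d).Point) :
    s.card ≤ 2 * Fintype.card F + 1 := by
  have h1 : s.card ≤ (s.erase 0).card + 1 := by
    have := Finset.pred_card_le_card_erase (s := s) (a := 0)
    omega
  have h2 : (s.erase 0).card ≤ 2 * ((s.erase 0).image cX).card := by
    apply card_le_mul_card_image
    intro c hc
    rw [mem_image] at hc
    obtain ⟨P0, hP0, rfl⟩ := hc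
    have hsub : ({P ∈ s.erase 0 | cX P = cX P0} : Finset (W d).Point) ⊆ {P0, -P0} := by
      intro P hP
      rw [mem_filter, mem_erase] at hP
      rw [mem_erase] at hP0
      rw [mem_insert, mem_singleton]
      exact eq_or_neg hP.1.1 hP0.1 hP.2
    exact (card_le_card hsub).trans (card_le_two)
  have h3 : ((s.erase 0).image cX).card ≤ Fintype.card F := card_le_univ _
  omega

/-- a point `R` with `2 R = 0` -/
theorem two_tor {d : F} (h2 : (2 : F) ≠ 0) {R : (W d).Point} (h : R + R = 0) :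
    cY R = 0 ∧ (cX R = 0 ∨ cX R = d * ea F ∨ cX R = d * eb F) := by
  have hY : cY R = 0 := by
    by_contra hc
    exact (add_self h2 hc).1 h
  refine ⟨hY, ?_⟩
  have e := eqn (P := R)
  rw [hY] at e
  have e2 : cX R * (cX R - d * ea F) * (cX R - d * eb F) = 0 := by
    rw [← e]; ring
  rcases mul_eq_zero.mp e2 with h1 | h1
  · rcases mul_eq_zero.mp h1 with h3 | h3
    · exact Or.inl h3
    · exact Or.inr (Or.inl (sub_eq_zero.mp h3))
  · exact Or.inr (Or.inr (sub_eq_zero.mp h1))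

/-- `X(2R)` and `X(2R) - d a` are squares -/
theorem squares {d : F} (h2 : (2 : F) ≠ 0) {R : (W d).Point} (hR : R + R ≠ 0) :
    (∃ s : F, cX (R + R) = s ^ 2) ∧ ∃ s : F, cX (R + R) - d * ea F = s ^ 2 := by
  have hR0 : R ≠ 0 := by
    rintro rfl
    exact hR (add_zero _)
  have hY : cY R ≠ 0 := by
    intro h0
    apply hR
    have h3 : -R = R := by
      have h4 : -R ≠ 0 := neg_ne_zero.mpr hR0
      apply ext_pt h4 hR0 (cX_neg R)
      rw [cY_neg, h0, neg_zero]
    calc R + R = R + -R := by rw [h3]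
      _ = 0 := add_neg_cancel R
  obtain ⟨-, g, -⟩ := add_self h2 hY
  have e := eqn (P := R)
  have h2Y : 2 * cY R ≠ 0 := mul_ne_zero h2 hY
  constructor
  · refine ⟨(cX R ^ 2 - d ^ 2 * (ea F * eb F)) / (2 * cY R), ?_⟩
    rw [g, div_pow, div_pow, eq_div_iff (pow_ne_zero 2 h2Y)]
    field_simp
    linear_combination (4 * (d * (ea F + eb F) - 2 * cX R)) * e
  · refine ⟨(cX R ^ 2 - 2 * d * ea F * cX R + d ^ 2 * (ea F * eb F)) / (2 * cY R), ?_⟩
    rw [g, div_pow, div_pow, eq_div_iff (pow_ne_zero 2 h2Y)]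
    field_simp
    linear_combination (4 * (d * (ea F + eb F) - 2 * cX R - d * ea F)) * e

/-- `2 A` has at most one nonzero 2-torsion element if `-1` is not a square -/
theorem half {d : F} (h2 : (2 : F) ≠ 0) (hd : d ≠ 0) (ha : ea F ≠ 0) (hF : ∀ x : F, x ^ 2 ≠ -1)
    (x y : (W d).Point) (hx : 4 • x = 0) (hy : 4 • y = 0) (hx0 : 2 • x ≠ 0) :
    ∃ k : ℤ, 2 • y = k • (2 • x) := by
  by_contra hno
  have hdd : ∀ z : (W d).Point, 4 • z = 0 → (z + z) + (z + z) = 0 := by
    intro z hz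
    rw [← hz]
    abel
  have hx1 : x + x ≠ 0 := by rwa [two_nsmul] at hx0
  have hy1 : y + y ≠ 0 := by
    intro h0
    apply hno
    exact ⟨0, by rw [two_nsmul, h0, zero_smul]⟩
  have hxy : x + x ≠ y + y := by
    intro h0
    apply hno
    exact ⟨1, by rw [one_smul, two_nsmul, two_nsmul, h0]⟩
  have ex := hdd x hx
  have ey := hdd y hy
  have nx : -(x + x) = x + x := by
    rw [neg_eq_iff_add_eq_zero]; exact ex
  have ny : -(y + y) = y + y := by
    rw [neg_eq_iff_add_eq_zero]; exact ey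
  have hw0 : (x + y) + (x + y) ≠ 0 := by
    intro h0
    apply hxy
    have h1 : (x + x) + (y + y) = 0 := by rw [← h0]; abel
    have h3 := eq_neg_of_add_eq_zero_left h1
    rw [ny] at h3
    exact h3
  have ew : ((x + y) + (x + y)) + ((x + y) + (x + y)) = 0 := by
    have h1 : ((x + y) + (x + y)) + ((x + y) + (x + y)) =
        ((x + x) + (x + x)) + ((y + y) + (y + y)) := by abel
    rw [h1, ex, ey, add_zero]
  have nw : -((x + y) + (x + y)) = (x + y) + (x + y) := by
    rw [neg_eq_iff_add_eq_zero]; exact ew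
  obtain ⟨-, cx⟩ := two_tor h2 ex
  obtain ⟨-, cy⟩ := two_tor h2 ey
  obtain ⟨-, cw⟩ := two_tor h2 ew
  have dxy : cX (x + x) ≠ cX (y + y) := by
    intro h0
    rcases eq_or_neg hx1 hy1 h0 with h | h
    · exact hxy h
    · rw [ny] at h
      exact hxy h
  have dxw : cX (x + x) ≠ cX ((x + y) + (x + y)) := by
    intro h0
    have h3 : x + x = (x + y) + (x + y) := by
      rcases eq_or_neg hx1 hw0 h0 with h | h
      · exact h
      · rw [nw] at h
        exact h
    apply hy1
    have h4 : (x + x) + (y + y) = x + x := by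
      calc (x + x) + (y + y) = (x + y) + (x + y) := by abel
        _ = x + x := h3.symm
    exact left_eq_add.mp h4.symm
  have dyw : cX (y + y) ≠ cX ((x + y) + (x + y)) := by
    intro h0
    have h3 : y + y = (x + y) + (x + y) := by
      rcases eq_or_neg hy1 hw0 h0 with h | h
      · exact h
      · rw [nw] at h
        exact h
    apply hx1
    have h4 : (x + x) + (y + y) = y + y := by
      calc (x + x) + (y + y) = (x + y) + (x + y) := by abel
        _ = y + y := h3.symm
    exact right_eq_add.mp h4.symm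
  -- the two values
  have key0 : ∀ R : (W d).Point, R + R ≠ 0 → cX (R + R) = 0 → ∃ s : F, -(d * ea F) = s ^ 2 := by
    intro R hR h0
    obtain ⟨-, s, hs⟩ := squares h2 hR
    exact ⟨s, by rw [← hs, h0]; ring⟩
  have key1 : ∀ R : (W d).Point, R + R ≠ 0 → cX (R + R) = d * ea F → ∃ s : F, d * ea F = s ^ 2 := by
    intro R hR h0
    obtain ⟨⟨s, hs⟩, -⟩ := squares h2 hR
    exact ⟨s, by rw [← hs, h0]⟩
  have e0 : ∃ s : F, -(d * ea F) = s ^ 2 := by
    rcases cx with cx | cx | cx
    · exact key0 x hx1 cx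
    · rcases cy with cy | cy | cy
      · exact key0 y hy1 cy
      · exact absurd (cx.trans cy.symm) dxy
      · rcases cw with cw | cw | cw
        · exact key0 _ hw0 cw
        · exact absurd (cx.trans cw.symm) dxw
        · exact absurd (cy.trans cw.symm) dyw
    · rcases cy with cy | cy | cy
      · exact key0 y hy1 cy
      · rcases cw with cw | cw | cw
        · exact key0 _ hw0 cw
        · exact absurd (cy.trans cw.symm) dyw
        · exact absurd (cx.trans cw.symm) dxw
      · exact absurd (cx.trans cy.symm) dxy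
  have e1 : ∃ s : F, d * ea F = s ^ 2 := by
    rcases cx with cx | cx | cx
    · rcases cy with cy | cy | cy
      · exact absurd (cx.trans cy.symm) dxy
      · exact key1 y hy1 cy
      · rcases cw with cw | cw | cw
        · exact absurd (cx.trans cw.symm) dxw
        · exact key1 _ hw0 cw
        · exact absurd (cy.trans cw.symm) dyw
    · exact key1 x hx1 cx
    · rcases cy with cy | cy | cy
      · rcases cw with cw | cw | cw
        · exact absurd (cy.trans cw.symm) dyw
        · exact key1 _ hw0 cw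
        · exact absurd (cx.trans cw.symm) dxw
      · exact key1 y hy1 cy
      · exact absurd (cx.trans cy.symm) dxy
  obtain ⟨s, hs⟩ := e0
  obtain ⟨t, ht⟩ := e1
  have hda : d * ea F ≠ 0 := mul_ne_zero hd ha
  have ht0 : t ≠ 0 := by
    rintro rfl
    exact hda (by rw [ht]; ring)
  apply hF (s / t)
  rw [div_pow, ← hs, ← ht]
  field_simp

omit [Par] in
theorem fin_eq (k l : ℕ) (hkl : k ≤ l) (a b : Fin k) (hab : (l : ℤ) ∣ ((a : ℕ) : ℤ) - ((b : ℕ) : ℤ)) :
    a = b := by
  apply Fin.ext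
  have ha := a.2
  have hb := b.2
  have h1 : (((a : ℕ) : ℤ) - ((b : ℕ) : ℤ)).natAbs < l := by omega
  have h3 := Int.eq_zero_of_abs_lt_dvd hab (by
    rw [Int.abs_eq_natAbs]
    exact_mod_cast h1)
  omega

theorem big16 [Fintype F] {d : F} (x y : (W d).Point) (hx : 4 • x = 0) (hy : 4 • y = 0)
    (hx0 : 2 • x ≠ 0) (hno : ¬ ∃ k : ℤ, 2 • y = k • (2 • x)) : 16 ≤ 2 * Fintype.card F + 1 := by
  have h3 := ind_prime 2 Nat.prime_two (2 • x) (2 • y) (by rw [← mul_nsmul']; exact hx)
      (by rw [← mul_nsmul']; exact hy) hx0 hno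
  have hind : ∀ α β : ℤ, α • x + β • y = 0 → ((4 : ℕ) : ℤ) ∣ α ∧ ((4 : ℕ) : ℤ) ∣ β := by
    intro α β hab
    have h4 : α • ((2 : ℕ) • x) + β • ((2 : ℕ) • y) = 0 := by
      have h5 : (2 : ℕ) • (α • x + β • y) = 0 := by rw [hab, smul_zero]
      rw [smul_add, smul_comm, smul_comm (2 : ℕ) β y] at h5
      exact h5
    obtain ⟨⟨α', rfl⟩, ⟨β', rfl⟩⟩ := h3 _ _ h4
    have h6 : α' • ((2 : ℕ) • x) + β' • ((2 : ℕ) • y) = 0 := by
      rw [← hab, mul_comm, mul_smul, mul_comm, mul_smul, natCast_zsmul, natCast_zsmul]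
    obtain ⟨⟨α'', rfl⟩, ⟨β'', rfl⟩⟩ := h3 _ _ h6
    push_cast
    refine ⟨⟨α'', by ring⟩, ⟨β'', by ring⟩⟩
  let g : Fin 4 × Fin 4 → (W d).Point := fun p => ((p.1 : ℕ) : ℤ) • x + ((p.2 : ℕ) : ℤ) • y
  have hg : Function.Injective g := by
    rintro ⟨a, b⟩ ⟨a', b'⟩ h
    have h4 : ((a : ℕ) : ℤ) • x + ((b : ℕ) : ℤ) • y = ((a' : ℕ) : ℤ) • x + ((b' : ℕ) : ℤ) • y := h
    have h5 : (((a : ℕ) : ℤ) - ((a' : ℕ) : ℤ)) • x + (((b : ℕ) : ℤ) - ((b' : ℕ) : ℤ)) • y = 0 := by
      rw [sub_smul, sub_smul]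
      rw [← sub_eq_zero] at h4
      rw [← h4]
      abel
    obtain ⟨h6, h7⟩ := hind _ _ h5
    rw [fin_eq 4 4 le_rfl a a' h6, fin_eq 4 4 le_rfl b b' h7]
  have := card_le (Finset.univ.image g)
  rw [Finset.card_image_of_injective _ hg, Finset.card_univ, Fintype.card_prod, Fintype.card_fin]
    at this
  exact this

theorem big36 [Fintype F] [Gd F] {d : F} (h2 : (2 : F) ≠ 0) (hd : d ≠ 0) (l : ℕ) (hl : l.Prime)
    (hl2 : l ≠ 2) (x y : (W d).Point) (hx : l • x = 0) (hy : l • y = 0) (hx0 : x ≠ 0)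
    (hno : ¬ ∃ k : ℤ, y = k • x) : 36 ≤ 2 * Fintype.card F + 1 := by
  have hind := ind_prime l hl x y hx hy hx0 hno
  have hl3 : 3 ≤ l := by
    have := hl.two_le
    omega
  let T : Fin 4 → (W d).Point := ![0, tor d 0, tor d (ea F), tor d (eb F)]
  have i0 := G.isP_tor (d := d) (e := 0) h2 hd G.cub_zero
  have i1 := G.isP_tor (d := d) (e := ea F) h2 hd G.cub_ea
  have i2 := G.isP_tor (d := d) (e := eb F) h2 hd G.cub_eb
  have hneg : ∀ R : (W d).Point, -R = R → R + R = 0 := by
    intro R hR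
    calc R + R = R + -R := by rw [hR]
      _ = 0 := add_neg_cancel R
  have hT2 : ∀ t, T t + T t = 0 := by
    intro t
    fin_cases t
    · exact add_zero _
    · exact hneg _ i0.neg_self
    · exact hneg _ i1.neg_self
    · exact hneg _ i2.neg_self
  have n0 : tor d (0 : F) ≠ 0 := i0.ne_zero
  have n1 : tor d (ea F) ≠ 0 := i1.ne_zero
  have n2 : tor d (eb F) ≠ 0 := i2.ne_zero
  have n01 : tor d (0 : F) ≠ tor d (ea F) := by
    intro h
    have h5 := i0.xn_eq hd
    rw [h, i1.xn_eq hd] at h5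
    exact ea_ne F h5
  have n02 : tor d (0 : F) ≠ tor d (eb F) := by
    intro h
    have h5 := i0.xn_eq hd
    rw [h, i2.xn_eq hd] at h5
    exact eb_ne F h5
  have n12 : tor d (ea F) ≠ tor d (eb F) := by
    intro h
    have h5 := i1.xn_eq hd
    rw [h, i2.xn_eq hd] at h5
    exact ea_ne_eb F h5.symm
  have hTi : Function.Injective T := by
    intro t t' h
    fin_cases t <;> fin_cases t'
    · rfl
    · exact absurd h.symm n0
    · exact absurd h.symm n1
    · exact absurd h.symm n2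
    · exact absurd h n0
    · rfl
    · exact absurd h n01
    · exact absurd h n02
    · exact absurd h n1
    · exact absurd h.symm n01
    · rfl
    · exact absurd h n12
    · exact absurd h n2
    · exact absurd h.symm n02
    · exact absurd h.symm n12
    · rfl
  let g : (Fin 3 × Fin 3) × Fin 4 → (W d).Point := fun p =>
    ((p.1.1 : ℕ) : ℤ) • x + ((p.1.2 : ℕ) : ℤ) • y + T p.2
  have hg : Function.Injective g := by
    rintro ⟨⟨a, b⟩, t⟩ ⟨⟨a', b'⟩, t'⟩ h
    have h4 : ((a : ℕ) : ℤ) • x + ((b : ℕ) : ℤ) • y + T t =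
      ((a' : ℕ) : ℤ) • x + ((b' : ℕ) : ℤ) • y + T t' := h
    have h5 : (2 * (((a : ℕ) : ℤ) - ((a' : ℕ) : ℤ))) • x +
        (2 * (((b : ℕ) : ℤ) - ((b' : ℕ) : ℤ))) • y = 0 := by
      have e1 : (2 * (((a : ℕ) : ℤ) - ((a' : ℕ) : ℤ))) • x +
        (2 * (((b : ℕ) : ℤ) - ((b' : ℕ) : ℤ))) • y =
        (((a : ℕ) : ℤ) • x + ((b : ℕ) : ℤ) • y + T t) + (((a : ℕ) : ℤ) • x + ((b : ℕ) : ℤ) • y + T t)
        - ((((a' : ℕ) : ℤ) • x + ((b' : ℕ) : ℤ) • y + T t') +
          (((a' : ℕ) : ℤ) • x + ((b' : ℕ) : ℤ) • y + T t')) - (T t + T t) + (T t' + T t') := by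
        module
      rw [e1, h4, hT2, hT2]
      abel
    obtain ⟨h6, h7⟩ := hind _ _ h5
    have hlp : Prime (l : ℤ) := Nat.prime_iff_prime_int.mp hl
    have hn2 : ¬ (l : ℤ) ∣ 2 := by
      intro h8
      have h9 : l ∣ 2 := by exact_mod_cast h8
      exact hl2 ((Nat.prime_dvd_prime_iff_eq hl Nat.prime_two).mp h9)
    have ha := fin_eq 3 l hl3 a a' ((hlp.dvd_or_dvd h6).resolve_left hn2)
    have hb := fin_eq 3 l hl3 b b' ((hlp.dvd_or_dvd h7).resolve_left hn2)
    subst ha hb
    have ht := hTi (add_left_cancel h4)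
    rw [ht]
  have := card_le (Finset.univ.image g)
  rw [Finset.card_image_of_injective _ hg, Finset.card_univ, Fintype.card_prod, Fintype.card_prod,
    Fintype.card_fin, Fintype.card_fin] at this
  exact this

end pts

/-- `Cyc p` for `p = 3, 5, 7, 11` -/
theorem cyc_small (p : ℕ) (hp : p = 3 ∨ p = 5 ∨ p = 7 ∨ p = 11) (ha : ¬ (p : ℤ) ∣ Par.a)
    (hb : ¬ (p : ℤ) ∣ Par.b) (hab : ¬ (p : ℤ) ∣ Par.a - Par.b) : Cyc p := by
  intro hpf δ hδ
  have h2 : (2 : ZMod p) ≠ 0 := by
    intro h0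
    have h1 : ((2 : ℕ) : ZMod p) = 0 := by exact_mod_cast h0
    rw [ZMod.natCast_eq_zero_iff] at h1
    have h3 := Nat.le_of_dvd (by norm_num) h1
    omega
  have gd : Gd (ZMod p) := by
    refine ⟨?_, ?_, ?_⟩
    · intro h
      exact ha ((ZMod.intCast_zmod_eq_zero_iff_dvd _ _).mp h)
    · intro h
      exact hb ((ZMod.intCast_zmod_eq_zero_iff_dvd _ _).mp h)
    · intro h
      apply hab
      apply (ZMod.intCast_zmod_eq_zero_iff_dvd _ _).mp
      rw [Int.cast_sub]
      exact sub_eq_zero.mpr h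
  have hcard : Fintype.card (ZMod p) = p := ZMod.card p
  have hfin : Finite (W δ).Point := by
    have hinj : Function.Injective (fun P : (W δ).Point => (P = 0, cX P, cY P)) := by
      intro P Q h
      simp only [Prod.mk.injEq] at h
      obtain ⟨h0, h1, h3⟩ := h
      rcases P with _ | ⟨x, y, hxy⟩
      · have : Q = 0 := h0.mp rfl
        exact this.symm
      · rcases Q with _ | ⟨x', y', hxy'⟩
        · exact absurd (h0.mpr rfl) (Point.some_ne_zero _)
        · have e1 : x = x' := h1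
          have e2 : y = y' := h3
          subst e1 e2
          rfl
    exact Finite.of_injective _ hinj
  apply H26C.two_cyclic
  · intro l hl hl2 x y hx hy hx0
    by_contra hno
    have := big36 h2 hδ l hl hl2 x y hx hy hx0 hno
    rw [hcard] at this
    omega
  · intro x y hx hy hx0
    by_cases h5 : p = 5
    · by_contra hno
      have := big16 x y hx hy hx0 hno
      rw [hcard] at this
      omega
    · refine half h2 hδ (ea_ne _) ?_ x y hx hy hx0
      intro z hz
      have h1 : IsSquare (-1 : ZMod p) := ⟨z, by rw [← hz, sq]⟩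
      exact (ZMod.exists_sq_eq_neg_one_iff.mp h1) (by omega)

end Pool.Agent.WAR.H26S
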