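import Pool.Agent.WAR.StmtsL

/-!
# Squad WAR, row UNI: a pair which is cyclic modulo the kernel of reduction (and the 2-torsion) is
unimodular modulo every level
-/

set_option autoImplicit false

namespace Pool.Agent.WAR.H26

open Classical WeierstrassCurve.Affine

variable [Par]

section alg
variable {F : Type} [Field F] {d : F}

theorem sm_add (a : ℤ) (P Q : Pt d) : sm a (P + Q) = sm a P + sm a Q := by
  rw [sm_def, sm_def, sm_def, zsmul_add]

theorem add_sm (a b : ℤ) (P : Pt d) : sm (a + b) P = sm a P + sm b P := by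
  rw [sm_def, sm_def, sm_def, add_zsmul]

theorem mul_sm (a b : ℤ) (P : Pt d) : sm (a * b) P = sm a (sm b P) := by
  rw [sm_def, sm_def, sm_def, smul_smul]

theorem zero_sm (P : Pt d) : sm 0 P = 0 := by
  rw [sm_def, zero_smul]

theorem one_sm (P : Pt d) : sm 1 P = P := by
  rw [sm_def, one_smul]

theorem sub_sm (a b : ℤ) (P : Pt d) : sm (a - b) P = sm a P - sm b P := by
  rw [eq_sub_iff_add_eq, ← add_sm, sub_add_cancel]

theorem sm_sub (a : ℤ) (P Q : Pt d) : sm a (P - Q) = sm a P - sm a Q := by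
  rw [eq_sub_iff_add_eq, ← sm_add, sub_add_cancel]

theorem two_sm (P : Pt d) : sm 2 P = P + P := by
  have h : (2 : ℤ) = 1 + 1 := by norm_num
  rw [h, add_sm, one_sm]

theorem sm_comm (a b : ℤ) (P : Pt d) : sm a (sm b P) = sm b (sm a P) := by
  rw [← mul_sm, mul_comm, mul_sm]

theorem tor_add_self (e : F) : (tor d e : Pt d) + tor d e = 0 := by
  unfold tor mkPt
  by_cases h : (W d).Nonsingular (e * d) 0
  · rw [dif_pos h]
    exact Point.add_self_of_Y_eq (by rw [W_negY, neg_zero])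
  · rw [dif_neg h]
    exact add_zero (0 : Pt d)

theorem isT_add_self {T : Pt d} (h : IsT T) : T + T = 0 := by
  rcases h with rfl | rfl | rfl | rfl
  · exact add_zero 0
  · exact tor_add_self _
  · exact tor_add_self _
  · exact tor_add_self _

end alg

section
variable {F : Type} [NormedField F] {ϖ : ℤ}

theorem big_zero {d : F} : Big 1 (0 : Pt d) := Or.inl rfl

theorem lev_zero {d : F} {r : ℝ} (hr : 0 < r) : Lev r (0 : Pt d) :=
  ⟨big_zero, by rw [zs_zero, norm_zero]; exact hr.le⟩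

theorem q_pos (h : IsLoc F ϖ) : 0 < qn F ϖ := h.uni

theorem q_lt (h : IsLoc F ϖ) : qn F ϖ < 1 := (h.lt_one ϖ).2 dvd_rfl

theorem d_ne (h : IsLoc F ϖ) {d : F} (hd : ‖d‖ = 1 ∨ ‖d‖ = qn F ϖ) : d ≠ 0 := by
  intro h0
  rw [h0, norm_zero] at hd
  rcases hd with hd | hd
  · exact zero_ne_one hd
  · exact (q_pos h).ne hd

theorem q_le_d (h : IsLoc F ϖ) {d : F} (hd : ‖d‖ = 1 ∨ ‖d‖ = qn F ϖ) : qn F ϖ ≤ ‖d‖ := by
  rcases hd with hd | hd
  · rw [hd]; exact (q_lt h).le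
  · exact hd.ge

/-- the kernel of reduction is stable -/
theorem big_sub (zlv : ZlvStmt) (h : IsLoc F ϖ) {d : F} (hd : d ≠ 0) {P Q : Pt d} (hP : Big 1 P)
    (hQ : Big 1 Q) : Big 1 (P - Q) :=
  ((zlv F ϖ h d hd).1 (max ‖zs P‖ ‖zs Q‖) P Q ⟨hP, le_max_left _ _⟩ ⟨hQ, le_max_right _ _⟩).2.2.1

theorem big_add (zlv : ZlvStmt) (h : IsLoc F ϖ) {d : F} (hd : d ≠ 0) {P Q : Pt d} (hP : Big 1 P)
    (hQ : Big 1 Q) : Big 1 (P + Q) :=
  ((zlv F ϖ h d hd).1 (max ‖zs P‖ ‖zs Q‖) P Q ⟨hP, le_max_left _ _⟩ ⟨hQ, le_max_right _ _⟩).1.1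

theorem big_sm (zlv : ZlvStmt) (h : IsLoc F ϖ) {d : F} (hd : d ≠ 0) (a : ℤ) {P : Pt d}
    (hP : Big 1 P) : Big 1 (sm a P) :=
  ((zlv F ϖ h d hd).2.1 ‖zs P‖ a P ⟨hP, le_rfl⟩).1

/-- some multiple of every point is in the kernel of reduction -/
theorem ex_mult (cnt : CntStmt) (ram : RamStmt) (h : IsLoc F ϖ)
    {d : F} (hd : ‖d‖ = 1 ∨ ‖d‖ = qn F ϖ) (P : Pt d)
    (hsm : ∀ (a : ℤ) (Q : Pt d), Big 1 Q → Big 1 (sm a Q)) :
    ∃ a : ℤ, a ≠ 0 ∧ Big 1 (sm a P) := by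
  rcases hd with hd | hd
  · by_contra hcon
    push Not at hcon
    let f : ℕ → Pt d := fun n => sm (n : ℤ) P
    have hf : ∀ i j : ℕ, i ≠ j → ¬ Big 1 (f i - f j) := by
      intro i j hij
      show ¬ Big 1 (sm (i : ℤ) P - sm (j : ℤ) P)
      rw [← sub_sm]
      exact hcon _ (sub_ne_zero.2 (fun e => hij (Nat.cast_injective e)))
    have hinj : Function.Injective f := by
      intro i j e
      by_contra hij
      apply hf i j hij
      rw [e, sub_self]
      exact big_zero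
    have := cnt F ϖ h d hd ((Finset.range (2 * nm ϖ + 2)).image f) (by
      intro A hA B hB hAB
      obtain ⟨i, _, rfl⟩ := Finset.mem_image.1 hA
      obtain ⟨j, _, rfl⟩ := Finset.mem_image.1 hB
      exact hf i j (fun e => hAB (by rw [e])))
    rw [Finset.card_image_of_injective _ hinj, Finset.card_range] at this
    omega
  · refine ⟨2, two_ne_zero, ?_⟩
    obtain ⟨T, hT, hb⟩ := ram F ϖ h d hd P
    have h1 := hsm 2 _ hb
    rw [sm_sub, two_sm T, isT_add_self hT, sub_zero] at h1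
    exact h1

/-- the annihilator modulo the kernel of reduction -/
theorem ex_gen (zlv : ZlvStmt) (cnt : CntStmt) (ram : RamStmt) (pt2 : Pt2Stmt) (h : IsLoc F ϖ)
    {d : F} (hd : ‖d‖ = 1 ∨ ‖d‖ = qn F ϖ) (P : Pt d) :
    ∃ c : ℤ, Big 1 (sm c P) ∧ ¬ ϖ ∣ c := by
  have hd0 := d_ne h hd
  let I : Ideal ℤ :=
    { carrier := {a | Big 1 (sm a P)}
      add_mem' := by
        intro a b ha hb
        show Big 1 (sm (a + b) P)
        rw [add_sm]
        exact big_add zlv h hd0 ha hb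
      zero_mem' := by
        show Big 1 (sm 0 P)
        rw [zero_sm]
        exact big_zero
      smul_mem' := by
        intro a b hb
        show Big 1 (sm (a * b) P)
        rw [mul_sm]
        exact big_sm zlv h hd0 a hb }
  obtain ⟨c, hc⟩ := (IsPrincipalIdealRing.principal I).principal
  have hmem : ∀ a, Big 1 (sm a P) ↔ c ∣ a := by
    intro a
    rw [← Ideal.mem_span_singleton]
    have : a ∈ I ↔ a ∈ Ideal.span {c} := by rw [hc]
    exact this
  refine ⟨c, (hmem c).2 dvd_rfl, ?_⟩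
  rintro ⟨c', hc'⟩
  have h3 : Big 1 (sm c' P) := by
    refine pt2 F ϖ h d hd ϖ h.prime h.odd le_rfl _ ?_
    rw [← mul_sm, ← hc']
    exact (hmem c).2 dvd_rfl
  obtain ⟨e, he⟩ := (hmem c').1 h3
  obtain ⟨a, ha0, ha⟩ := ex_mult cnt ram h hd P (fun a Q hQ => big_sm zlv h hd0 a hQ)
  have hc0 : c ≠ 0 := by
    rintro rfl
    exact ha0 (zero_dvd_iff.1 ((hmem a).1 ha))
  have h4 : c * (ϖ * e) = c * 1 := by
    calc c * (ϖ * e) = ϖ * (c * e) := by ring
      _ = ϖ * c' := by rw [← he]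
      _ = c * 1 := by rw [← hc', mul_one]
  exact h.prime.not_isUnit (IsUnit.of_mul_eq_one _ (mul_left_cancel₀ hc0 h4))

end

/-- **row UNI** -/
theorem uni (zlv : ZlvStmt) (dgn : DgnStmt) (cnt : CntStmt) (ram : RamStmt) (pt2 : Pt2Stmt)
    (its : ItsStmt) : UniStmt := by
  intro F _ ϖ h d hd P Q ρ hρ hcyc
  obtain ⟨c, e, T, hce, hT, hR⟩ := hcyc
  have hd0 := d_ne h hd
  obtain ⟨u, v, huv⟩ := hce
  obtain ⟨-, -, i3, -⟩ := its F ϖ h d hd0
  obtain ⟨c0, hH, hc0⟩ := ex_gen zlv cnt ram pt2 h hd (sm (-v) P + sm u Q)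
  by_cases hcase : ‖zs (sm c P + sm e Q - T)‖ ≤ ‖zs (sm c0 (sm (-v) P + sm u Q))‖
  · obtain ⟨a, -, ha⟩ := dgn F ϖ h d hd0 _ _ 1 ρ hH hR hcase
      (fun h1 => h.prime.not_isUnit (isUnit_of_dvd_one h1)) hρ
    refine ⟨v, -u, c - a * c0 * (-v), e - a * c0 * u, T, ?_, hT, ?_⟩
    · linear_combination huv
    · have e1 : sm (c - a * c0 * (-v)) P + sm (e - a * c0 * u) Q - T =
          sm c P + sm e Q - T - sm a (sm c0 (sm (-v) P + sm u Q)) := by
        simp only [sm_def]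
        module
      rw [e1]
      exact ha
  · have hle : ‖zs (sm c0 (sm (-v) P + sm u Q))‖ ≤ ‖zs (sm c P + sm e Q - T)‖ :=
      (not_le.mp hcase).le
    have hR' : Big 1 (sm c0 (sm (-v) P + sm u Q) - (sm c P + sm e Q - T)) :=
      big_sub zlv h hd0 hH hR
    have hle' : ‖zs (sm c0 (sm (-v) P + sm u Q) - (sm c P + sm e Q - T))‖ ≤
        ‖zs (sm c P + sm e Q - T)‖ :=
      ((zlv F ϖ h d hd0).1 ‖zs (sm c P + sm e Q - T)‖ _ _ ⟨hH, hle⟩ ⟨hR, le_rfl⟩).2.2.2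
    obtain ⟨a', ⟨k, rfl⟩, ha⟩ := dgn F ϖ h d hd0 _ _ c0 ρ hR hR' hle' hc0 hρ
    refine ⟨-v - k * c, -(-u + k * e), c0 * (-v) - (1 + c0 * k) * c, c0 * u - (1 + c0 * k) * e,
      sm (-(1 + c0 * k)) T, ?_, i3 _ _ hT, ?_⟩
    · linear_combination huv
    · have e1 : sm (c0 * (-v) - (1 + c0 * k) * c) P + sm (c0 * u - (1 + c0 * k) * e) Q -
          sm (-(1 + c0 * k)) T =
          sm c0 (sm (-v) P + sm u Q) - (sm c P + sm e Q - T) -
            sm (c0 * k) (sm c P + sm e Q - T) := by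
        simp only [sm_def]
        module
      rw [e1]
      exact ha

end Pool.Agent.WAR.H26
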